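import Pool.Agent.Helper93.ML.Defs

/-!
# Module M2 of MP_021201_al: the Dehn property implies hyperbolicity (helper99)

`Pool.Agent.Helper99.ML.dehnHyp : StmtDehnHyp`.

Route: (0) dual linear isoperimetric inequality `|∮ φ dψ| ≤ 8 ℓ² n`; (1) Besicovitch inequality;
(2) detours around a point of a geodesic are long; (3) thin triangles; (4) four point condition.
-/

namespace Pool.Agent.Helper99.ML

open Pool.Agent.Helper93.ML

section

variable {X : Type} {d : X → X → ℕ}

/-! ## Step 0 : paths with integral -/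

/-- the integrand -/
def om (φ ψ : X → ℤ) (x y : X) : ℤ := (φ x + φ y) * (ψ y - ψ x)

/-- `PI d φ ψ x y n s`: there is a path of `n` steps from `x` to `y` with integral `s`. -/
inductive PI (d : X → X → ℕ) (φ ψ : X → ℤ) : X → X → ℕ → ℤ → Prop
  | nil (x : X) : PI d φ ψ x x 0 0
  | cons {x y z : X} {n : ℕ} {s : ℤ} (h : d x y ≤ 1) (t : PI d φ ψ y z n s) :
      PI d φ ψ x z (n + 1) (om φ ψ x y + s)

variable {φ ψ : X → ℤ}

theorem PI.cast {x y : X} {n n' : ℕ} {s s' : ℤ} (h : PI d φ ψ x y n s) (hn : n = n')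
    (hs : s = s') : PI d φ ψ x y n' s' := by subst hn; subst hs; exact h

theorem PI.append {x y z : X} {n m : ℕ} {s t : ℤ} (h : PI d φ ψ x y n s)
    (h' : PI d φ ψ y z m t) : PI d φ ψ x z (n + m) (s + t) := by
  induction h with
  | nil x => exact h'.cast (by omega) (by ring)
  | cons hd _ ih => exact (PI.cons hd (ih h')).cast (by omega) (by ring)

theorem PI.rev (hd : IsGeo d) {x y : X} {n : ℕ} {s : ℤ} (h : PI d φ ψ x y n s) :
    PI d φ ψ y x n (-s) := by
  induction h with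
  | nil x => exact (PI.nil x).cast rfl (by ring)
  | @cons x y z n s h1 _ ih =>
    have h2 : PI d φ ψ y x 1 (om φ ψ y x) := by
      have h0 : d y x ≤ 1 := by rw [hd.symm]; exact h1
      have := PI.cons (φ := φ) (ψ := ψ) h0 (PI.nil x)
      exact this.cast rfl (by ring)
    exact (ih.append h2).cast rfl (by unfold om; ring)

/-- decomposition of a path -/
theorem PI.toFun {x z : X} {n : ℕ} {s : ℤ} (h : PI d φ ψ x z n s) :
    ∃ (f : ℕ → X) (F : ℕ → ℤ), f 0 = x ∧ f n = z ∧ IsPath d f n ∧ F 0 = 0 ∧ F n = s ∧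
      ∀ i j, i ≤ j → j ≤ n → PI d φ ψ (f i) (f j) (j - i) (F j - F i) := by
  induction h with
  | nil x =>
    refine ⟨fun _ => x, fun _ => 0, rfl, rfl, ?_, rfl, rfl, ?_⟩
    · intro i hi; omega
    · intro i j hij hj
      have hj0 : j = 0 := by omega
      have hi0 : i = 0 := by omega
      subst hj0; subst hi0
      exact (PI.nil x).cast rfl (by simp)
  | @cons x y z n s hd _ ih =>
    obtain ⟨f, F, f0, fn, hp, F0, Fn, hs⟩ := ih
    refine ⟨fun k => match k with | 0 => x | k + 1 => f k,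
      fun k => match k with | 0 => 0 | k + 1 => om φ ψ x y + F k, rfl, fn, ?_, rfl, ?_, ?_⟩
    · intro i hi
      cases i with
      | zero => simpa [f0] using hd
      | succ i => exact hp i (by omega)
    · simp [Fn]
    · intro i j hij hj
      cases i with
      | zero =>
        cases j with
        | zero => exact (PI.nil x).cast rfl (by simp)
        | succ j =>
          have h1 := hs 0 j (by omega) (by omega)
          rw [f0, F0] at h1
          exact (PI.cons hd h1).cast (by omega) (by simp)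
      | succ i =>
        cases j with
        | zero => omega
        | succ j =>
          exact (hs i j (by omega) (by omega)).cast (by omega) (by ring)

/-- geodesics -/
theorem PI.geo (hd : IsGeo d) (φ ψ : X → ℤ) :
    ∀ (n : ℕ) (x y : X), d x y = n → ∃ s, PI d φ ψ x y n s := by
  intro n
  induction n with
  | zero =>
    intro x y h
    have := (hd.eq_iff x y).1 h
    subst this
    exact ⟨0, PI.nil x⟩
  | succ n ih =>
    intro x y h
    obtain ⟨z, h1, h2⟩ := hd.interp x y 1 (by omega)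
    obtain ⟨s, hs⟩ := ih z y (by omega)
    exact ⟨_, PI.cons (by omega) hs⟩

/-- one-Lipschitz functions -/
def Lip (d : X → X → ℕ) (φ : X → ℤ) : Prop := ∀ x y, |φ x - φ y| ≤ d x y

theorem PI.small (hφ : Lip d φ) (hψ : Lip d ψ) {x y : X} {n : ℕ} {s : ℤ}
    (h : PI d φ ψ x y n s) : ∀ (c : ℤ) (r : ℕ), |φ x - c| ≤ r →
      |s - 2 * c * (ψ y - ψ x)| ≤ 2 * ((r : ℤ) + n) * n := by
  induction h with
  | nil x => intro c r _; simp
  | @cons x y z n s h1 _ ih =>
    intro c r hr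
    have hxy : |φ x - φ y| ≤ 1 := le_trans (hφ x y) (by exact_mod_cast h1)
    have hxy' : |ψ x - ψ y| ≤ 1 := le_trans (hψ x y) (by exact_mod_cast h1)
    have hyc : |φ y - c| ≤ ((r + 1 : ℕ) : ℤ) := by
      have : φ y - c = (φ x - c) - (φ x - φ y) := by ring
      rw [this]
      calc |φ x - c - (φ x - φ y)| ≤ |φ x - c| + |φ x - φ y| := abs_sub _ _
        _ ≤ _ := by push_cast; linarith
    have h2 := ih c (r + 1) hyc
    have h3 : |(φ x + φ y - 2 * c) * (ψ y - ψ x)| ≤ 2 * (r : ℤ) + 1 := by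
      rw [abs_mul]
      have h4 : |φ x + φ y - 2 * c| ≤ 2 * (r : ℤ) + 1 := by
        have : φ x + φ y - 2 * c = 2 * (φ x - c) - (φ x - φ y) := by ring
        rw [this]
        calc |2 * (φ x - c) - (φ x - φ y)| ≤ |2 * (φ x - c)| + |φ x - φ y| := abs_sub _ _
          _ = 2 * |φ x - c| + |φ x - φ y| := by rw [abs_mul]; norm_num
          _ ≤ _ := by linarith
      have h5 : |ψ y - ψ x| ≤ 1 := by rw [abs_sub_comm]; exact hxy'
      calc |φ x + φ y - 2 * c| * |ψ y - ψ x| ≤ (2 * (r : ℤ) + 1) * 1 :=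
            mul_le_mul h4 h5 (abs_nonneg _) (by positivity)
        _ = _ := by ring
    have h6 : om φ ψ x y + s - 2 * c * (ψ z - ψ x)
        = (φ x + φ y - 2 * c) * (ψ y - ψ x) + (s - 2 * c * (ψ z - ψ y)) := by
      unfold om; ring
    rw [h6]
    calc |(φ x + φ y - 2 * c) * (ψ y - ψ x) + (s - 2 * c * (ψ z - ψ y))|
        ≤ |(φ x + φ y - 2 * c) * (ψ y - ψ x)| + |s - 2 * c * (ψ z - ψ y)| := abs_add_le _ _
      _ ≤ (2 * (r : ℤ) + 1) + 2 * (((r + 1 : ℕ) : ℤ) + n) * n := by linarith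
      _ ≤ 2 * ((r : ℤ) + ((n + 1 : ℕ) : ℤ)) * ((n + 1 : ℕ) : ℤ) := by
          push_cast
          nlinarith [Int.natCast_nonneg r, Int.natCast_nonneg n]

theorem PI.closed_small (hφ : Lip d φ) (hψ : Lip d ψ) {x : X} {n : ℕ} {s : ℤ}
    (h : PI d φ ψ x x n s) : |s| ≤ 2 * (n : ℤ) ^ 2 := by
  have := PI.small hφ hψ h (φ x) 0 (by simp)
  simp only [sub_self, mul_zero, sub_zero, Nat.cast_zero, zero_add] at this
  calc |s| ≤ _ := this
    _ = _ := by ring

/-- the dual isoperimetric inequality -/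
theorem isoper (hd : IsGeo d) {ℓ : ℕ} (hD : Dehn d ℓ) (hφ : Lip d φ) (hψ : Lip d ψ) :
    ∀ (n : ℕ) (x : X) (s : ℤ), PI d φ ψ x x n s → |s| ≤ 8 * (ℓ : ℤ) ^ 2 * n := by
  intro n
  induction n using Nat.strong_induction_on with
  | _ n ih =>
    intro x s h
    rcases Nat.eq_zero_or_pos n with h0 | hpos
    · subst h0
      cases h
      simp
    · obtain ⟨f, F, f0, fn, hp, F0, Fn, hs⟩ := h.toFun
      obtain ⟨i, j, hij, hjn, hjl, hsh⟩ := hD n f hpos hp (by rw [f0, fn])
      obtain ⟨s4, h4⟩ := PI.geo hd φ ψ _ (f i) (f j) rfl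
      have h1 := hs 0 i (by omega) (by omega)
      have h2 := hs i j (by omega) (by omega)
      have h3 := hs j n (by omega) (by omega)
      rw [f0] at h1
      rw [fn] at h3
      set e := d (f i) (f j) with he
      have hbig := (h1.append h4).append h3
      have hsmall := h2.append (h4.rev hd)
      have b1 := ih _ (by omega) _ _ hbig
      have b2 := PI.closed_small hφ hψ hsmall
      have hn1 : ((i - 0 + e + (n - j) : ℕ) : ℤ) ≤ (n : ℤ) - 1 := by
        have : i - 0 + e + (n - j) + 1 ≤ n := by omega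
        have := (Nat.cast_le (α := ℤ)).2 this
        push_cast at this ⊢
        linarith
      have hn2 : ((j - i + e : ℕ) : ℤ) ≤ 2 * (ℓ : ℤ) := by
        have : j - i + e ≤ 2 * ℓ := by omega
        exact_mod_cast this
      have hs' : s = (F i - F 0 + s4 + (F n - F j)) + (F j - F i + -s4) := by
        rw [F0, Fn]; ring
      have b3 : 2 * ((j - i + e : ℕ) : ℤ) ^ 2 ≤ 8 * (ℓ : ℤ) ^ 2 := by
        have : ((j - i + e : ℕ) : ℤ) ^ 2 ≤ (2 * (ℓ : ℤ)) ^ 2 :=
          pow_le_pow_left₀ (Int.natCast_nonneg _) hn2 2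
        nlinarith
      have b4 : 8 * (ℓ : ℤ) ^ 2 * ((i - 0 + e + (n - j) : ℕ) : ℤ)
          ≤ 8 * (ℓ : ℤ) ^ 2 * ((n : ℤ) - 1) :=
        mul_le_mul_of_nonneg_left hn1 (by positivity)
      rw [hs']
      calc |(F i - F 0 + s4 + (F n - F j)) + (F j - F i + -s4)|
          ≤ |F i - F 0 + s4 + (F n - F j)| + |F j - F i + -s4| := abs_add_le _ _
        _ ≤ 8 * (ℓ : ℤ) ^ 2 * ((n : ℤ) - 1) + 8 * (ℓ : ℤ) ^ 2 := by
            linarith
        _ = _ := by ring

/-! ## Step 1 : paths in sets, Besicovitch -/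

/-- path with all vertices in `S` -/
inductive Pth (d : X → X → ℕ) (S : Set X) : X → X → ℕ → Prop
  | nil {x : X} (h : x ∈ S) : Pth d S x x 0
  | cons {x y z : X} {n : ℕ} (hx : x ∈ S) (h : d x y ≤ 1) (t : Pth d S y z n) :
      Pth d S x z (n + 1)

theorem Pth.cast {S : Set X} {x y : X} {n n' : ℕ} (h : Pth d S x y n) (hn : n = n') :
    Pth d S x y n' := by subst hn; exact h

theorem Pth.append {S : Set X} {x y z : X} {n m : ℕ} (h : Pth d S x y n)
    (h' : Pth d S y z m) : Pth d S x z (n + m) := by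
  induction h with
  | nil _ => exact h'.cast (by omega)
  | cons hx hd _ ih => exact (Pth.cons hx hd (ih h')).cast (by omega)

theorem Pth.left {S : Set X} {x y : X} {n : ℕ} (h : Pth d S x y n) : x ∈ S := by
  cases h <;> assumption

theorem Pth.right {S : Set X} {x y : X} {n : ℕ} (h : Pth d S x y n) : y ∈ S := by
  induction h with
  | nil h => exact h
  | cons _ _ _ ih => exact ih

theorem Pth.mono {S S' : Set X} (hS : S ⊆ S') {x y : X} {n : ℕ} (h : Pth d S x y n) :
    Pth d S' x y n := by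
  induction h with
  | nil h => exact Pth.nil (hS h)
  | cons hx hd _ ih => exact Pth.cons (hS hx) hd ih

theorem Pth.symm (hd : IsGeo d) {S : Set X} {x y : X} {n : ℕ} (h : Pth d S x y n) :
    Pth d S y x n := by
  induction h with
  | nil h => exact Pth.nil h
  | @cons x y z n hx h1 t ih =>
    have h2 : Pth d S y x 1 :=
      Pth.cons t.left (by rw [hd.symm]; exact h1) (Pth.nil hx)
    exact ih.append h2

theorem Pth.dist_le (hd : IsGeo d) {S : Set X} {x y : X} {n : ℕ} (h : Pth d S x y n) :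
    d x y ≤ n := by
  induction h with
  | @nil x h => rw [(hd.eq_iff x x).2 rfl]
  | @cons x y z n hx h1 t ih => exact le_trans (hd.tri x y z) (by omega)

theorem Pth.constφ {S : Set X} {x y : X} {n : ℕ} (h : Pth d S x y n) (a : ℤ)
    (ha : ∀ v ∈ S, φ v = a) : PI d φ ψ x y n (2 * a * (ψ y - ψ x)) := by
  induction h with
  | @nil x h => exact (PI.nil x).cast rfl (by ring)
  | @cons x y z n hx h1 t ih =>
    exact (PI.cons h1 ih).cast rfl (by
      unfold om; rw [ha x hx, ha y t.left]; ring)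

theorem Pth.constψ {S : Set X} {x y : X} {n : ℕ} (h : Pth d S x y n) (b : ℤ)
    (hb : ∀ v ∈ S, ψ v = b) : PI d φ ψ x y n 0 := by
  induction h with
  | @nil x h => exact PI.nil x
  | @cons x y z n hx h1 t ih =>
    exact (PI.cons h1 ih).cast rfl (by
      unfold om; rw [hb x hx, hb y t.left]; ring)

/-- distance to a set -/
noncomputable def dS (d : X → X → ℕ) (A : Set X) (v : X) : ℕ := sInf ((fun a => d v a) '' A)

theorem dS_le {A : Set X} {a : X} (ha : a ∈ A) (v : X) : dS d A v ≤ d v a :=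
  Nat.sInf_le ⟨a, ha, rfl⟩

theorem dS_mem {A : Set X} (hA : A.Nonempty) (v : X) : ∃ a ∈ A, dS d A v = d v a := by
  obtain ⟨a, ha, h⟩ := Nat.sInf_mem (hA.image (fun a => d v a))
  exact ⟨a, ha, h.symm⟩

theorem dS_lip (hd : IsGeo d) {A : Set X} (hA : A.Nonempty) (v w : X) :
    dS d A v ≤ d v w + dS d A w := by
  obtain ⟨a, ha, h⟩ := dS_mem (d := d) hA w
  rw [h]
  exact le_trans (dS_le ha v) (hd.tri v w a)

/-- truncated distance -/
noncomputable def tr (d : X → X → ℕ) (R : ℕ) (A : Set X) (v : X) : ℤ :=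
  ((min R (dS d A v) : ℕ) : ℤ)

theorem tr_lip (hd : IsGeo d) (R : ℕ) {A : Set X} (hA : A.Nonempty) :
    Lip d (tr d R A) := by
  intro v w
  have h1 := dS_lip hd hA v w
  have h2 := dS_lip hd hA w v
  rw [hd.symm w v] at h2
  unfold tr
  rw [abs_le]
  constructor <;> omega

theorem tr_zero (hd : IsGeo d) (R : ℕ) {A : Set X} {v : X} (hv : v ∈ A) :
    tr d R A v = 0 := by
  have h := dS_le (d := d) hv v
  rw [(hd.eq_iff v v).2 rfl] at h
  unfold tr
  have : dS d A v = 0 := by omega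
  rw [this]; simp

theorem tr_top {R : ℕ} {A : Set X} (hA : A.Nonempty) {v : X}
    (hv : ∀ a ∈ A, R ≤ d v a) : tr d R A v = R := by
  obtain ⟨a, ha, h⟩ := dS_mem (d := d) hA v
  unfold tr
  rw [h, min_eq_left (hv a ha)]

/-- Besicovitch property with constant `K` -/
def Bes (d : X → X → ℕ) (K : ℕ) : Prop :=
  ∀ (R : ℕ) (A B C D : Set X) (x0 x1 x2 x3 : X) (a b c e : ℕ),
    Pth d A x0 x1 a → Pth d B x1 x2 b → Pth d C x2 x3 c → Pth d D x3 x0 e →
    (∀ v ∈ A, ∀ w ∈ C, R ≤ d v w) → (∀ v ∈ B, ∀ w ∈ D, R ≤ d v w) →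
    R ^ 2 ≤ K * (a + b + c + e)

theorem bes_of_dehn (hd : IsGeo d) {ℓ : ℕ} (hD : Dehn d ℓ) : Bes d (4 * ℓ ^ 2) := by
  intro R A B C D x0 x1 x2 x3 a b c e hA hB hC hDD hAC hBD
  have neA : A.Nonempty := ⟨_, hA.left⟩
  have neB : B.Nonempty := ⟨_, hB.left⟩
  have p1 : PI d (tr d R A) (tr d R B) x0 x1 a (2 * 0 * (tr d R B x1 - tr d R B x0)) :=
    hA.constφ 0 (fun v hv => tr_zero hd R hv)
  have p2 : PI d (tr d R A) (tr d R B) x1 x2 b 0 :=
    hB.constψ 0 (fun v hv => tr_zero hd R hv)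
  have p3 : PI d (tr d R A) (tr d R B) x2 x3 c (2 * (R : ℤ) * (tr d R B x3 - tr d R B x2)) :=
    hC.constφ R (fun v hv => tr_top neA (fun a ha => by rw [hd.symm]; exact hAC a ha v hv))
  have p4 : PI d (tr d R A) (tr d R B) x3 x0 e 0 :=
    hDD.constψ R (fun v hv => tr_top neB (fun a ha => by rw [hd.symm]; exact hBD a ha v hv))
  have h := isoper hd hD (tr_lip hd R neA) (tr_lip hd R neB) _ _ _
    (((p1.append p2).append p3).append p4)
  have e2 : tr d R B x2 = 0 := tr_zero hd R hB.right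
  have e3 : tr d R B x3 = R :=
    tr_top neB (fun a ha => by rw [hd.symm]; exact hBD a ha x3 hDD.left)
  rw [e2, e3] at h
  have h1 : (2 : ℤ) * 0 * (tr d R B x1 - tr d R B x0) + 0 + 2 * (R : ℤ) * ((R : ℤ) - 0) + 0
      = 2 * (R : ℤ) ^ 2 := by ring
  rw [h1, abs_of_nonneg (by positivity)] at h
  have h2 : ((R ^ 2 : ℕ) : ℤ) ≤ ((4 * ℓ ^ 2 * (a + b + c + e) : ℕ) : ℤ) := by
    push_cast at h ⊢
    linarith
  exact_mod_cast h2

/-! ## Step 2 : geodesic sets and detours -/

/-- `A` is the vertex set of a geodesic from `x` to `z`. -/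
def GeoSet (d : X → X → ℕ) (A : Set X) (x z : X) : Prop :=
  ∃ (g : ℕ → X) (L : ℕ), g 0 = x ∧ g L = z ∧ (∀ i j, i ≤ j → j ≤ L → d (g i) (g j) = j - i) ∧
    A = {v | ∃ i ≤ L, g i = v}

theorem GeoSet.symm (hd : IsGeo d) {A : Set X} {x z : X} (h : GeoSet d A x z) :
    GeoSet d A z x := by
  obtain ⟨g, L, g0, gL, hg, hA⟩ := h
  refine ⟨fun i => g (L - i), L, by simpa using gL, by simpa using g0, ?_, ?_⟩
  · intro i j hij hj
    rw [hd.symm]
    rw [hg (L - j) (L - i) (by omega) (by omega)]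
    omega
  · rw [hA]
    ext v
    constructor
    · rintro ⟨i, hi, rfl⟩
      exact ⟨L - i, by omega, by simp only; congr 1; omega⟩
    · rintro ⟨i, hi, rfl⟩
      exact ⟨L - i, by omega, rfl⟩

/-- a path whose number of steps is the distance of its endpoints is geodesic -/
theorem geo_fun (hd : IsGeo d) : ∀ (n : ℕ) (x y : X), d x y = n →
    ∃ g : ℕ → X, g 0 = x ∧ g n = y ∧ ∀ i < n, d (g i) (g (i + 1)) ≤ 1 := by
  intro n
  induction n with
  | zero =>
    intro x y h
    have := (hd.eq_iff x y).1 h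
    subst this
    exact ⟨fun _ => x, rfl, rfl, fun i hi => by omega⟩
  | succ n ih =>
    intro x y h
    obtain ⟨z, h1, h2⟩ := hd.interp x y 1 (by omega)
    obtain ⟨g, g0, gn, hg⟩ := ih z y (by omega)
    refine ⟨fun k => match k with | 0 => x | k + 1 => g k, rfl, gn, ?_⟩
    intro i hi
    cases i with
    | zero => simp only [g0]; omega
    | succ i => exact hg i (by omega)

theorem steps_dist (hd : IsGeo d) {g : ℕ → X} {n : ℕ} (hg : ∀ i < n, d (g i) (g (i + 1)) ≤ 1) :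
    ∀ i j, i ≤ j → j ≤ n → d (g i) (g j) ≤ j - i := by
  intro i j hij
  induction j, hij using Nat.le_induction with
  | base => intro _; rw [(hd.eq_iff _ _).2 rfl]; omega
  | succ j hij ih =>
    intro hj
    have h1 := ih (by omega)
    have h2 := hg j (by omega)
    have h3 := hd.tri (g i) (g j) (g (j + 1))
    omega

theorem exists_geoSet (hd : IsGeo d) (x y : X) : ∃ A, GeoSet d A x y := by
  obtain ⟨g, g0, gn, hg⟩ := geo_fun hd _ x y rfl
  refine ⟨_, g, d x y, g0, gn, ?_, rfl⟩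
  intro i j hij hj
  have h1 := steps_dist hd hg 0 i (by omega) (by omega)
  have h2 := steps_dist hd hg i j hij hj
  have h3 := steps_dist hd hg j (d x y) hj le_rfl
  rw [g0] at h1
  rw [gn] at h3
  have h4 := hd.tri x (g i) y
  have h5 := hd.tri (g i) (g j) y
  omega

theorem GeoSet.left_mem {A : Set X} {x z : X} (h : GeoSet d A x z) : x ∈ A := by
  obtain ⟨g, L, g0, gL, hg, hA⟩ := h
  rw [hA]; exact ⟨0, by omega, g0⟩

theorem GeoSet.right_mem {A : Set X} {x z : X} (h : GeoSet d A x z) : z ∈ A := by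
  obtain ⟨g, L, g0, gL, hg, hA⟩ := h
  rw [hA]; exact ⟨L, le_rfl, gL⟩

theorem fun_path {S : Set X} {g : ℕ → X} {i : ℕ} : ∀ (k : ℕ),
    (∀ a, i ≤ a → a < i + k → d (g a) (g (a + 1)) ≤ 1) → (∀ a, i ≤ a → a ≤ i + k → g a ∈ S) →
    Pth d S (g i) (g (i + k)) k := by
  intro k
  induction k with
  | zero => intro _ hS; exact Pth.nil (hS i le_rfl (by omega))
  | succ k ih =>
    intro h1 hS
    have h2 := ih (fun a ha hb => h1 a ha (by omega)) (fun a ha hb => hS a ha (by omega))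
    have h3 : Pth d S (g (i + k)) (g (i + k + 1)) 1 :=
      Pth.cons (hS _ (by omega) (by omega)) (h1 _ (by omega) (by omega))
        (Pth.nil (hS _ (by omega) (by omega)))
    exact h2.append h3

/-- path from `x` to `y` of at most `m` steps in `S` -/
def Reach (d : X → X → ℕ) (S : Set X) (x y : X) (m : ℕ) : Prop := ∃ n ≤ m, Pth d S x y n

theorem Reach.trans {S : Set X} {x y z : X} {m k : ℕ} (h : Reach d S x y m)
    (h' : Reach d S y z k) : Reach d S x z (m + k) := by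
  obtain ⟨n, hn, p⟩ := h
  obtain ⟨n', hn', p'⟩ := h'
  exact ⟨n + n', by omega, p.append p'⟩

theorem Reach.symm (hd : IsGeo d) {S : Set X} {x y : X} {m : ℕ} (h : Reach d S x y m) :
    Reach d S y x m := by
  obtain ⟨n, hn, p⟩ := h
  exact ⟨n, hn, p.symm hd⟩

theorem Reach.mono {S : Set X} {x y : X} {m m' : ℕ} (h : Reach d S x y m) (hm : m ≤ m') :
    Reach d S x y m' := by
  obtain ⟨n, hn, p⟩ := h
  exact ⟨n, by omega, p⟩

/-- moving along a side -/
theorem GeoSet.reach (hd : IsGeo d) {A S : Set X} {x z : X} (h : GeoSet d A x z)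
    (hS : A ⊆ S) {v w : X} (hv : v ∈ A) (hw : w ∈ A) : Reach d S v w (d v w) := by
  obtain ⟨g, L, g0, gL, hg, hA⟩ := h
  have key : ∀ i j, i ≤ j → j ≤ L → Reach d S (g i) (g j) (d (g i) (g j)) := by
    intro i j hij hj
    have h1 := fun_path (d := d) (S := S) (g := g) (i := i) (j - i)
      (fun a ha hb => by rw [hg a (a + 1) (by omega) (by omega)]; omega)
      (fun a ha hb => hS (by rw [hA]; exact ⟨a, by omega, rfl⟩))
    rw [show i + (j - i) = j by omega] at h1
    exact ⟨_, by rw [hg i j hij hj], h1⟩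
  rw [hA] at hv hw
  obtain ⟨i, hi, rfl⟩ := hv
  obtain ⟨j, hj, rfl⟩ := hw
  rcases le_total i j with hij | hij
  · exact key i j hij hj
  · have := (key j i hij hi).symm hd
    rwa [hd.symm] at this

/-- moving towards an endpoint -/
theorem GeoSet.move {A : Set X} {x z : X} (h : GeoSet d A x z) {v : X}
    (hv : v ∈ A) : d x v + d v z = d x z ∧
      ∀ k, k ≤ d v z → ∃ v' ∈ A, d v v' = k ∧ d x v' = d x v + k := by
  obtain ⟨g, L, g0, gL, hg, hA⟩ := h
  rw [hA] at hv ⊢
  obtain ⟨i, hi, rfl⟩ := hv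
  have h1 := hg 0 i (by omega) hi
  have h2 := hg i L hi le_rfl
  have h3 := hg 0 L (by omega) le_rfl
  rw [g0] at h1 h3
  rw [gL] at h2 h3
  refine ⟨by omega, ?_⟩
  intro k hk
  refine ⟨g (i + k), ⟨i + k, by omega, rfl⟩, ?_, ?_⟩
  · rw [hg i (i + k) (by omega) (by omega)]; omega
  · have h4 := hg 0 (i + k) (by omega) (by omega)
    rw [g0] at h4
    omega

/-- short vertical segments -/
theorem reach_short (hd : IsGeo d) {p v w : X} {r e : ℕ} (h : d v w ≤ e)
    (hp : r + e ≤ d p v) : Reach d {u | r ≤ d p u} v w e := by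
  obtain ⟨A, hA⟩ := exists_geoSet hd v w
  have hS : A ⊆ {u | r ≤ d p u} := by
    intro u hu
    have h1 := (hA.move hu).1
    have h2 := hd.tri p u v
    rw [hd.symm u v] at h2
    show r ≤ d p u
    omega
  exact (hA.reach hd hS hA.left_mem hA.right_mem).mono h

/-- detours are long -/
theorem detour (hd : IsGeo d) {K : ℕ} (hB : Bes d K) {g : ℕ → X} {L t1 u t2 r m : ℕ}
    (hg : ∀ i j, i ≤ j → j ≤ L → d (g i) (g j) = j - i) (h1 : t1 ≤ u) (h2 : u ≤ t2)
    (h3 : t2 ≤ L) (hc : Reach d {v | r ≤ d (g u) v} (g t1) (g t2) m) :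
    (r / 2) ^ 2 ≤ 2 * K * m := by
  obtain ⟨n, hn, p⟩ := hc
  have hl := p.left
  have hr := p.right
  have hle := p.dist_le hd
  simp only [Set.mem_ofPred_eq] at hl hr
  rw [hd.symm, hg t1 u h1 (by omega)] at hl
  rw [hg u t2 h2 h3] at hr
  rw [hg t1 t2 (by omega) h3] at hle
  set ρ := r / 2 with hρ
  have hstep : ∀ a, a < L → d (g a) (g (a + 1)) ≤ 1 := fun a ha => by
    rw [hg a (a + 1) (by omega) (by omega)]; omega
  have pA := fun_path (d := d) (S := {v | ∃ a, u - ρ ≤ a ∧ a ≤ u + ρ ∧ g a = v}) (g := g)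
    (i := u - ρ) (2 * ρ) (fun a ha hb => hstep a (by omega))
    (fun a ha hb => ⟨a, by omega, by omega, rfl⟩)
  have pB := fun_path (d := d) (S := {v | ∃ a, u + ρ ≤ a ∧ a ≤ t2 ∧ g a = v}) (g := g)
    (i := u + ρ) (t2 - (u + ρ)) (fun a ha hb => hstep a (by omega))
    (fun a ha hb => ⟨a, by omega, by omega, rfl⟩)
  have pD := fun_path (d := d) (S := {v | ∃ a, t1 ≤ a ∧ a ≤ u - ρ ∧ g a = v}) (g := g)
    (i := t1) (u - ρ - t1) (fun a ha hb => hstep a (by omega))
    (fun a ha hb => ⟨a, by omega, by omega, rfl⟩)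
  rw [show u - ρ + 2 * ρ = u + ρ by omega] at pA
  rw [show u + ρ + (t2 - (u + ρ)) = t2 by omega] at pB
  rw [show t1 + (u - ρ - t1) = u - ρ by omega] at pD
  have hbes := hB ρ _ _ _ _ _ _ _ _ _ _ _ _ pA pB (p.symm hd) pD ?_ ?_
  · refine hbes.trans ?_
    have : 2 * ρ + (t2 - (u + ρ)) + n + (u - ρ - t1) ≤ 2 * m := by omega
    calc K * (2 * ρ + (t2 - (u + ρ)) + n + (u - ρ - t1)) ≤ K * (2 * m) :=
          Nat.mul_le_mul_left K this
      _ = 2 * K * m := by ring
  · rintro v ⟨a, ha1, ha2, rfl⟩ w hw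
    simp only [Set.mem_ofPred_eq] at hw
    have h4 := hd.tri (g u) (g a) w
    have h5 : d (g u) (g a) ≤ ρ := by
      rcases le_total a u with hau | hau
      · rw [hd.symm, hg a u hau (by omega)]; omega
      · rw [hg u a hau (by omega)]; omega
    omega
  · rintro v ⟨a, ha1, ha2, rfl⟩ w ⟨b, hb1, hb2, rfl⟩
    rw [hd.symm, hg b a (by omega) (by omega)]
    omega

/-! ## Step 3 : fat sides -/

theorem fat_side (hd : IsGeo d) {K : ℕ} (hBes : Bes d K) {A B C : Set X} {x y z : X}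
    (hC : GeoSet d C x y) (hA : GeoSet d A x z) (hB : GeoSet d B y z) {r : ℕ}
    (tA : ∀ v ∈ A, ∃ w, (w ∈ B ∨ w ∈ C) ∧ d v w ≤ r)
    (tC : ∀ v ∈ C, ∃ w, (w ∈ A ∨ w ∈ B) ∧ d v w ≤ r)
    {p : X} (hp : p ∈ C) (fA : ∀ w ∈ A, r ≤ d p w) (fB : ∀ w ∈ B, r ≤ d p w) :
    (r / 2) ^ 2 ≤ 2 * K * (30 * r) := by
  obtain ⟨g, L, g0, gL, hg, hCe⟩ := id hC
  rw [hCe] at hp
  obtain ⟨u, huL, rfl⟩ := hp
  have hux : r ≤ u := by
    have := fA x hA.left_mem
    rw [hd.symm, ← g0, hg 0 u (by omega) huL] at this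
    omega
  have huy : r + u ≤ L := by
    have := fB y hB.left_mem
    rw [← gL, hg u L huL le_rfl] at this
    omega
  set S : Set X := {v | r ≤ d (g u) v} with hS
  have AS : A ⊆ S := fA
  have BS : B ⊆ S := fB
  -- the left point
  obtain ⟨t1, ht1, ht1', q1, hq1, hdq1, hR1⟩ : ∃ t1 ≤ u, u ≤ t1 + 4 * r ∧ ∃ q1,
      (q1 ∈ A ∨ q1 ∈ B) ∧ d (g t1) q1 ≤ r ∧ Reach d S (g t1) q1 r := by
    rcases le_total (4 * r) u with h4 | h4
    · obtain ⟨w, hw, hdw⟩ := tC (g (u - 4 * r)) (by rw [hCe]; exact ⟨_, by omega, rfl⟩)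
      refine ⟨u - 4 * r, by omega, by omega, w, hw, hdw, reach_short hd hdw ?_⟩
      rw [hd.symm, hg _ _ (by omega) huL]
      omega
    · refine ⟨0, by omega, by omega, x, Or.inl hA.left_mem, ?_, 0, by omega, ?_⟩
      · rw [g0, (hd.eq_iff x x).2 rfl]; omega
      · rw [g0]; exact Pth.nil (AS hA.left_mem)
  -- the right point
  obtain ⟨t2, ht2, ht2L, ht2', q2, hq2, hdq2, hR2⟩ : ∃ t2, u ≤ t2 ∧ t2 ≤ L ∧ t2 ≤ u + 4 * r ∧
      ∃ q2, (q2 ∈ A ∨ q2 ∈ B) ∧ d (g t2) q2 ≤ r ∧ Reach d S (g t2) q2 r := by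
    rcases le_total (u + 4 * r) L with h4 | h4
    · obtain ⟨w, hw, hdw⟩ := tC (g (u + 4 * r)) (by rw [hCe]; exact ⟨_, by omega, rfl⟩)
      refine ⟨u + 4 * r, by omega, by omega, by omega, w, hw, hdw, reach_short hd hdw ?_⟩
      rw [hg _ _ (by omega) h4]
      omega
    · refine ⟨L, by omega, by omega, by omega, y, Or.inr hB.left_mem, ?_, 0, by omega, ?_⟩
      · rw [gL, (hd.eq_iff y y).2 rfl]; omega
      · rw [gL]; exact Pth.nil (BS hB.left_mem)
  have h12 : d (g t1) (g t2) ≤ 8 * r := by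
    rw [hg t1 t2 (by omega) ht2L]; omega
  have hq12 : d q1 q2 ≤ 10 * r := by
    have a1 := hd.tri q1 (g t1) q2
    have a2 := hd.tri (g t1) (g t2) q2
    rw [hd.symm q1 (g t1)] at a1
    omega
  have hpq1 : d (g u) q1 ≤ 5 * r := by
    have a1 := hd.tri (g u) (g t1) q1
    rw [hd.symm (g u) (g t1), hg t1 u ht1 huL] at a1
    omega
  have hpq2 : d (g u) q2 ≤ 5 * r := by
    have a1 := hd.tri (g u) (g t2) q2
    rw [hg u t2 ht2 ht2L] at a1
    omega
  -- it is enough to find a detour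
  have finish : ∀ (s1 s2 m : ℕ), s1 ≤ u → u ≤ s2 → s2 ≤ L → m ≤ 30 * r →
      Reach d S (g s1) (g s2) m → (r / 2) ^ 2 ≤ 2 * K * (30 * r) := by
    intro s1 s2 m hs1 hs2 hs3 hm hreach
    exact detour hd hBes hg hs1 hs2 hs3 (hreach.mono hm)
  rcases hq1 with hq1 | hq1 <;> rcases hq2 with hq2 | hq2
  · exact finish t1 t2 _ ht1 ht2 ht2L (by omega)
      ((hR1.trans (hA.reach hd AS hq1 hq2)).trans (hR2.symm hd))
  · -- q1 in A, q2 in B
    obtain ⟨_, hmove⟩ := hA.move hq1
    rcases le_total (8 * r) (d q1 z) with h8 | h8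
    · obtain ⟨a', ha', hd1, hd2⟩ := hmove _ h8
      obtain ⟨w, hw, hdw⟩ := tA a' ha'
      have hpa : 3 * r ≤ d (g u) a' := by
        have := hd.tri q1 (g u) a'
        rw [hd.symm q1 (g u)] at this
        omega
      have hRw : Reach d S a' w r := reach_short hd hdw (by omega)
      have hRa : Reach d S (g t1) a' (9 * r) :=
        (hR1.trans (hA.reach hd AS hq1 ha')).mono (by omega)
      rcases hw with hw | hw
      · have hwq : d w q2 ≤ 19 * r := by
          have a1 := hd.tri w a' q2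
          have a2 := hd.tri a' q1 q2
          rw [hd.symm w a'] at a1
          rw [hd.symm a' q1] at a2
          omega
        exact finish t1 t2 _ ht1 ht2 ht2L (by omega)
          (((hRa.trans hRw).trans (hB.reach hd BS hw hq2)).trans (hR2.symm hd))
      · rw [hCe] at hw
        obtain ⟨s, hsL, rfl⟩ := hw
        have hus : u ≤ s := by
          have a1 := hd.tri x (g s) a'
          rw [hd.symm (g s) a'] at a1
          have a2 := hd.tri (g t1) q1 x
          have a3 : d x (g s) = s := by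
            rw [← g0, hg 0 s (by omega) hsL]; omega
          have a4 : d (g t1) x = t1 := by
            rw [hd.symm, ← g0, hg 0 t1 (by omega) (by omega)]; omega
          rw [hd.symm q1 x] at a2
          omega
        exact finish t1 s _ ht1 hus hsL (by omega) (hRa.trans hRw)
    · have hRz : Reach d S (g t1) z (9 * r) :=
        (hR1.trans (hA.reach hd AS hq1 hA.right_mem)).mono (by omega)
      have hzq : d z q2 ≤ 18 * r := by
        have a1 := hd.tri z q1 q2
        rw [hd.symm z q1] at a1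
        omega
      exact finish t1 t2 _ ht1 ht2 ht2L (by omega)
        ((hRz.trans (hB.reach hd BS hB.right_mem hq2)).trans (hR2.symm hd))
  · -- q1 in B, q2 in A
    obtain ⟨_, hmove⟩ := (hA.symm hd).move hq2
    have hxq := (hA.move hq2).1
    rcases le_total (8 * r) (d q2 x) with h8 | h8
    · obtain ⟨a', ha', hd1, hd2⟩ := hmove _ h8
      have hxa := (hA.move ha').1
      obtain ⟨w, hw, hdw⟩ := tA a' ha'
      have hpa : 3 * r ≤ d (g u) a' := by
        have := hd.tri q2 (g u) a'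
        rw [hd.symm q2 (g u)] at this
        omega
      have hRw : Reach d S a' w r := reach_short hd hdw (by omega)
      have hRa : Reach d S (g t2) a' (9 * r) :=
        (hR2.trans (hA.reach hd AS hq2 ha')).mono (by omega)
      rcases hw with hw | hw
      · have hwq : d w q1 ≤ 19 * r := by
          have a1 := hd.tri w a' q1
          have a2 := hd.tri a' q2 q1
          rw [hd.symm w a'] at a1
          rw [hd.symm a' q2, hd.symm q2 q1] at a2
          omega
        have hR := ((hRa.trans hRw).trans (hB.reach hd BS hw hq1)).trans (hR1.symm hd)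
        exact finish t1 t2 _ ht1 ht2 ht2L (by omega) (hR.symm hd)
      · rw [hCe] at hw
        obtain ⟨s, hsL, rfl⟩ := hw
        have hus : s ≤ u := by
          have a1 := hd.tri x a' (g s)
          have a2 := hd.tri x (g t2) q2
          have a3 : d x (g s) = s := by
            rw [← g0, hg 0 s (by omega) hsL]; omega
          have a4 : d x (g t2) = t2 := by
            rw [← g0, hg 0 t2 (by omega) (by omega)]; omega
          rw [hd.symm z a', hd.symm z q2] at hd2
          omega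
        exact finish s t2 _ hus ht2 ht2L (by omega) ((hRa.trans hRw).symm hd)
    · have hRx : Reach d S (g 0) (g t2) (9 * r) := by
        rw [g0]
        exact ((hR2.trans (hA.reach hd AS hq2 hA.left_mem)).mono (by omega)).symm hd
      exact finish 0 t2 _ (by omega) ht2 ht2L (by omega) hRx
  · exact finish t1 t2 _ ht1 ht2 ht2L (by omega)
      ((hR1.trans (hB.reach hd BS hq1 hq2)).trans (hR2.symm hd))

/-! ## Step 4 : thin triangles -/

theorem bound_of_fat {K r : ℕ} (hK : 1 ≤ K) (h : (r / 2) ^ 2 ≤ 2 * K * (30 * r)) :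
    r ≤ 960 * K := by
  rcases Nat.lt_or_ge r 2 with h2 | h2
  · omega
  · by_contra hcon
    push Not at hcon
    have h3 : r ≤ 4 * (r / 2) := by omega
    have h4 : r * r ≤ (4 * (r / 2)) * (4 * (r / 2)) := Nat.mul_le_mul h3 h3
    have h5 : r * r ≤ 16 * (2 * K * (30 * r)) := by
      calc r * r ≤ (4 * (r / 2)) * (4 * (r / 2)) := h4
        _ = 16 * (r / 2) ^ 2 := by ring
        _ ≤ _ := Nat.mul_le_mul_left _ h
    have h6 : r * r ≤ (960 * K) * r := by
      calc r * r ≤ _ := h5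
        _ = _ := by ring
    have h7 := Nat.le_of_mul_le_mul_right h6 (by omega)
    omega

theorem thin_triangle (hd : IsGeo d) {K : ℕ} (hK : 1 ≤ K) (hBes : Bes d K) {A B C : Set X}
    {x y z : X} (hC : GeoSet d C x y) (hA : GeoSet d A x z) (hB : GeoSet d B y z) :
    ∀ v ∈ C, ∃ w, (w ∈ A ∨ w ∈ B) ∧ d v w ≤ 960 * K := by
  classical
  let Th : ℕ → Prop := fun r => (∀ v ∈ A, ∃ w, (w ∈ B ∨ w ∈ C) ∧ d v w ≤ r) ∧
    (∀ v ∈ B, ∃ w, (w ∈ A ∨ w ∈ C) ∧ d v w ≤ r) ∧
    (∀ v ∈ C, ∃ w, (w ∈ A ∨ w ∈ B) ∧ d v w ≤ r)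
  have hex : ∃ r, Th r := by
    refine ⟨d x z + d y z + d x y, ?_, ?_, ?_⟩
    · intro v hv
      have := (hA.move hv).1
      exact ⟨x, Or.inr hC.left_mem, by rw [hd.symm]; omega⟩
    · intro v hv
      have := (hB.move hv).1
      exact ⟨y, Or.inr hC.right_mem, by rw [hd.symm]; omega⟩
    · intro v hv
      have := (hC.move hv).1
      exact ⟨x, Or.inl hA.left_mem, by rw [hd.symm]; omega⟩
  obtain ⟨hA1, hB1, hC1⟩ := Nat.find_spec hex
  have hmin : ∀ m, m < Nat.find hex → ¬ Th m := fun m hm => Nat.find_min hex hm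
  set r := Nat.find hex with hr
  have hrK : r ≤ 960 * K := by
    rcases Nat.eq_zero_or_pos r with h0 | hpos
    · omega
    · have hn := hmin (r - 1) (by omega)
      have hn' : (∃ v ∈ A, ∀ w, (w ∈ B ∨ w ∈ C) → r ≤ d v w) ∨
          (∃ v ∈ B, ∀ w, (w ∈ A ∨ w ∈ C) → r ≤ d v w) ∨
          (∃ v ∈ C, ∀ w, (w ∈ A ∨ w ∈ B) → r ≤ d v w) := by
        by_contra hcon
        push Not at hcon
        obtain ⟨c1, c2, c3⟩ := hcon
        apply hn
        refine ⟨fun v hv => ?_, fun v hv => ?_, fun v hv => ?_⟩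
        · obtain ⟨w, hw, h⟩ := c1 v hv
          exact ⟨w, hw, by omega⟩
        · obtain ⟨w, hw, h⟩ := c2 v hv
          exact ⟨w, hw, by omega⟩
        · obtain ⟨w, hw, h⟩ := c3 v hv
          exact ⟨w, hw, by omega⟩
      apply bound_of_fat hK
      rcases hn' with ⟨v, hv, h⟩ | ⟨v, hv, h⟩ | ⟨v, hv, h⟩
      · refine fat_side hd hBes hA hC (hB.symm hd) (r := r) ?_ ?_ hv
          (fun w hw => h w (Or.inr hw)) (fun w hw => h w (Or.inl hw))
        · intro v hv
          obtain ⟨w, hw, h⟩ := hC1 v hv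
          exact ⟨w, hw.symm, h⟩
        · intro v hv
          obtain ⟨w, hw, h⟩ := hA1 v hv
          exact ⟨w, hw.symm, h⟩
      · refine fat_side hd hBes hB (hC.symm hd) (hA.symm hd) (r := r) ?_ ?_ hv
          (fun w hw => h w (Or.inr hw)) (fun w hw => h w (Or.inl hw))
        · exact hC1
        · intro v hv
          obtain ⟨w, hw, h⟩ := hB1 v hv
          exact ⟨w, hw.symm, h⟩
      · exact fat_side hd hBes hC hA hB (r := r) hA1 hC1 hv
          (fun w hw => h w (Or.inl hw)) (fun w hw => h w (Or.inr hw))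
  intro v hv
  obtain ⟨w, hw, h⟩ := hC1 v hv
  exact ⟨w, hw, by omega⟩

/-! ## Step 5 : four points -/

theorem near_sum (hd : IsGeo d) {A : Set X} {x z v w : X} {T : ℕ} (hA : GeoSet d A x z)
    (hw : w ∈ A) (h : d v w ≤ T) : d x v + d v z ≤ d x z + 2 * T := by
  have h1 := (hA.move hw).1
  have h2 := hd.tri x w v
  have h3 := hd.tri v w z
  rw [hd.symm w v] at h2
  omega

theorem hyp_of_thin (hd : IsGeo d) {T : ℕ}
    (hT : ∀ (A B C : Set X) (x y z : X), GeoSet d C x y → GeoSet d A x z → GeoSet d B y z →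
      ∀ v ∈ C, ∃ w, (w ∈ A ∨ w ∈ B) ∧ d v w ≤ T) : Hyp d (2 * (T + 1)) := by
  classical
  intro x y z w
  -- sides
  obtain ⟨D, hD⟩ := exists_geoSet hd x z
  obtain ⟨Axy, hAxy⟩ := exists_geoSet hd x y
  obtain ⟨Azy, hAzy⟩ := exists_geoSet hd z y
  obtain ⟨Axw, hAxw⟩ := exists_geoSet hd x w
  obtain ⟨Azw, hAzw⟩ := exists_geoSet hd z w
  have k1 := hT _ _ _ _ _ _ hD hAxy hAzy
  have k2 := hT _ _ _ _ _ _ hD hAxw hAzw
  -- it suffices to find a point near opposite sides
  have fin1 : ∀ q v v', v ∈ Axy → d q v ≤ T + 1 → v' ∈ Azw → d q v' ≤ T + 1 →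
      d x z + d y w ≤ max (d x y + d z w) (d x w + d y z) + 2 * (2 * (T + 1)) := by
    intro q v v' hv h1 hv' h2
    have a1 := near_sum hd hAxy hv h1
    have a2 := near_sum hd hAzw hv' h2
    have a3 := hd.tri x q z
    have a4 := hd.tri y q w
    rw [hd.symm y q] at a4
    rw [hd.symm z q] at a2
    have := le_max_left (d x y + d z w) (d x w + d y z)
    omega
  have fin2 : ∀ q v v', v ∈ Azy → d q v ≤ T + 1 → v' ∈ Axw → d q v' ≤ T + 1 →
      d x z + d y w ≤ max (d x y + d z w) (d x w + d y z) + 2 * (2 * (T + 1)) := by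
    intro q v v' hv h1 hv' h2
    have a1 := near_sum hd hAzy hv h1
    have a2 := near_sum hd hAxw hv' h2
    have a3 := hd.tri x q z
    have a4 := hd.tri y q w
    rw [hd.symm y q] at a4
    rw [hd.symm z q, hd.symm z y] at a1
    have := le_max_right (d x y + d z w) (d x w + d y z)
    omega
  obtain ⟨g, L, g0, gL, hg, hDe⟩ := hD
  have mem : ∀ i ≤ L, g i ∈ D := fun i hi => by rw [hDe]; exact ⟨i, hi, rfl⟩
  let Q : ℕ → Prop := fun i => (∃ v ∈ Axy, d (g i) v ≤ T) ∧ (∃ v ∈ Axw, d (g i) v ≤ T)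
  by_cases hall : ∀ i ≤ L, Q i
  · obtain ⟨⟨v, hv, h1⟩, _⟩ := hall L le_rfl
    rw [gL] at h1
    exact fin1 z v z hv (by omega) hAzw.left_mem (by rw [(hd.eq_iff z z).2 rfl]; omega)
  · push Not at hall
    obtain ⟨hk, hkn⟩ := Nat.find_spec hall
    have hmin : ∀ m, m < Nat.find hall → m ≤ L → Q m := by
      intro m hm hmL
      by_contra hQ
      exact Nat.find_min hall hm ⟨hmL, hQ⟩
    set k := Nat.find hall with hkdef
    have hkpos : k ≠ 0 := by
      intro h0
      apply hkn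
      rw [h0]
      refine ⟨⟨x, hAxy.left_mem, ?_⟩, ⟨x, hAxw.left_mem, ?_⟩⟩ <;>
        rw [g0, (hd.eq_iff x x).2 rfl] <;> omega
    obtain ⟨⟨v1, hv1, e1⟩, ⟨v2, hv2, e2⟩⟩ := hmin (k - 1) (by omega) (by omega)
    have hstep : d (g (k - 1)) (g k) = 1 := by
      rw [hg (k - 1) k (by omega) hk]; omega
    by_cases hxy : ∃ v ∈ Axy, d (g k) v ≤ T
    · have hxw : ¬ ∃ v ∈ Axw, d (g k) v ≤ T := fun h => hkn ⟨hxy, h⟩
      obtain ⟨v, hv, h⟩ := k2 (g k) (mem k hk)
      rcases hv with hv | hv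
      · exact absurd ⟨v, hv, h⟩ hxw
      · have := hd.tri (g (k - 1)) (g k) v
        exact fin1 (g (k - 1)) v1 v hv1 (by omega) hv (by omega)
    · obtain ⟨v, hv, h⟩ := k1 (g k) (mem k hk)
      rcases hv with hv | hv
      · exact absurd ⟨v, hv, h⟩ hxy
      · have := hd.tri (g (k - 1)) (g k) v
        exact fin2 (g (k - 1)) v v2 hv (by omega) hv2 (by omega)

end

/-- MODULE M2. -/
theorem dehnHyp : StmtDehnHyp := by
  intro X d ℓ hd hl hD
  have hK : 1 ≤ 4 * ℓ ^ 2 := by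
    have : 1 ≤ ℓ ^ 2 := Nat.one_le_pow _ _ hl
    omega
  have h := hyp_of_thin hd (T := 960 * (4 * ℓ ^ 2))
    (fun A B C x y z hC hA hB => thin_triangle hd hK (bes_of_dehn hd hD) hC hA hB)
  intro x y z w
  have h1 := h x y z w
  have h2 : 2 * (2 * (960 * (4 * ℓ ^ 2) + 1)) ≤ 2 * (10 ^ 6 * ℓ ^ 2) := by
    have : 1 ≤ ℓ ^ 2 := Nat.one_le_pow _ _ hl
    omega
  omega

end Pool.Agent.Helper99.ML
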